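import Pool.Agent.Work.MP_64ea0f_cs.InterfaceG2b

set_option autoImplicit false

namespace Pool.CS

namespace LTR59

variable (D : Rd)

theorem B_add (h : Stmt_BAS) (v v' w : D.V) : D.B (v + v') w = D.B v w + D.B v' w := by
  have := (h D).2.1 1 1 v v' w
  simpa using this

theorem B_smul (h : Stmt_BAS) (a : ℝ) (v w : D.V) : D.B (a • v) w = a * D.B v w := by
  have := (h D).2.1 a 0 v 0 w
  simpa using this

theorem B_add' (h : Stmt_BAS) (v w w' : D.V) : D.B v (w + w') = D.B v w + D.B v w' := by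
  rw [(h D).1 v, B_add D h, (h D).1 w, (h D).1 w']

theorem B_smul' (h : Stmt_BAS) (a : ℝ) (v w : D.V) : D.B v (a • w) = a * D.B v w := by
  rw [(h D).1 v, B_smul D h, (h D).1 w]

theorem B_neg (h : Stmt_BAS) (v w : D.V) : D.B (-v) w = -D.B v w := by
  have := B_smul D h (-1) v w
  simpa using this

theorem B_neg' (h : Stmt_BAS) (v w : D.V) : D.B v (-w) = -D.B v w := by
  rw [(h D).1 v, B_neg D h, (h D).1 w]

theorem B_zero' (h : Stmt_BAS) (v : D.V) : D.B v 0 = 0 := by
  have := B_smul' D h 0 v 0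
  simpa using this

theorem B_sum' (h : Stmt_BAS) (v : D.V) (A : Finset D.V) (f : D.V → D.V) :
    D.B v (∑ α ∈ A, f α) = ∑ α ∈ A, D.B v (f α) := by
  classical
  induction A using Finset.induction_on with
  | empty => simpa using B_zero' D h v
  | insert a s ha ih => rw [Finset.sum_insert ha, Finset.sum_insert ha, B_add' D h, ih]

/-- `t` acts on the vectors orthogonal to `δ` as the translation by `w` -/
def Tr (δ : D.V) (t : D.W) (w : D.V) : Prop :=
  D.B δ w = 0 ∧ ∀ v, D.B v δ = 0 → D.ρ t v = v + D.B v w • δ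

theorem Tr_one (h : Stmt_BAS) (δ : D.V) : Tr D δ 1 0 :=
  ⟨B_zero' D h δ, fun v _ => by simp [B_zero' D h v]⟩

theorem Tr_mul (h : Stmt_BAS) (δ : D.V) (hδ : D.B δ δ = 0) {t t' : D.W} {w w' : D.V}
    (ht : Tr D δ t w) (ht' : Tr D δ t' w') : Tr D δ (t * t') (w + w') := by
  refine ⟨by rw [B_add' D h, ht.1, ht'.1, add_zero], fun v hv => ?_⟩
  have h1 : D.ρ t δ = δ := by
    have := ht.2 δ hδ
    rwa [ht.1, zero_smul, add_zero] at this
  rw [map_mul, Module.End.mul_apply, ht'.2 v hv, map_add, map_smul, h1, ht.2 v hv, B_add' D h,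
    add_smul, add_assoc]

theorem Tr_inv (h : Stmt_BAS) (δ : D.V) (hδ : D.B δ δ = 0) {t : D.W} {w : D.V}
    (ht : Tr D δ t w) : Tr D δ t⁻¹ (-w) := by
  refine ⟨by rw [B_neg' D h, ht.1, neg_zero], fun v hv => ?_⟩
  have h2 : D.B (v + (-D.B v w) • δ) δ = 0 := by
    rw [B_add D h, B_smul D h, hv, hδ]; ring
  have h3 := ht.2 _ h2
  have h4 : D.B (v + (-D.B v w) • δ) w = D.B v w := by
    rw [B_add D h, B_smul D h, ht.1]; ring
  rw [h4, neg_smul, neg_add_cancel_right] at h3
  have h5 : D.ρ t⁻¹ (D.ρ t (v + -(D.B v w • δ))) = v + -(D.B v w • δ) := by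
    rw [← Module.End.mul_apply, ← map_mul, inv_mul_cancel, map_one, Module.End.one_apply]
  rw [h3] at h5
  rw [h5, B_neg' D h, neg_smul]

theorem Tr_pow (h : Stmt_BAS) (δ : D.V) (hδ : D.B δ δ = 0) {t : D.W} {w : D.V}
    (ht : Tr D δ t w) (n : ℕ) : Tr D δ (t ^ n) ((n : ℝ) • w) := by
  induction n with
  | zero => simpa using Tr_one D h δ
  | succ n ih =>
    have := Tr_mul D h δ hδ ih ht
    rw [pow_succ]
    have e : ((n + 1 : ℕ) : ℝ) • w = (n : ℝ) • w + w := by
      push_cast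
      rw [add_smul, one_smul]
    rw [e]
    exact this

/-- the translations in `M` -/
def G (h : Stmt_BAS) (δ : D.V) (hδ : D.B δ δ = 0) (M : Subgroup D.W) : AddSubgroup D.V where
  carrier := {w | ∃ t ∈ M, Tr D δ t w}
  zero_mem' := ⟨1, M.one_mem, Tr_one D h δ⟩
  add_mem' := by
    rintro a b ⟨t, ht, h1⟩ ⟨t', ht', h2⟩
    exact ⟨t * t', M.mul_mem ht ht', Tr_mul D h δ hδ h1 h2⟩
  neg_mem' := by
    rintro a ⟨t, ht, h1⟩
    exact ⟨t⁻¹, M.inv_mem ht, Tr_inv D h δ hδ h1⟩

/-- the product of two parallel reflections -/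
theorem Tr_rf (h : Stmt_BAS) (δ : D.V) (α : D.V) (c : ℝ) (hα : α ∈ D.Rt)
    (hα' : α + c • δ ∈ D.Rt) (hαδ : D.B α δ = 0) :
    Tr D δ (D.rf (α + c • δ) * D.rf α) ((2 * c) • α) := by
  refine ⟨by rw [B_smul' D h, (h D).1, hαδ, mul_zero], fun v hv => ?_⟩
  obtain ⟨hsym, hlin, -, -, hinv, hnorm, -, hRt, hneg, hrf, -⟩ := h D
  rw [map_mul, Module.End.mul_apply, hrf α hα, hrf _ hα']
  have h1 : D.B (v - (2 * D.B v α) • α) (α + c • δ) = -D.B v α := by
    rw [sub_eq_add_neg, ← neg_smul, B_add D h, B_smul D h, B_add' D h, B_add' D h, B_smul' D h,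
      B_smul' D h, hv, hαδ, hnorm α hα]
    ring
  rw [h1, B_smul' D h]
  module

end LTR59

open LTR59 in
theorem ltr_thm : Stmt_THR → Stmt_ORT → Stmt_BAS → Stmt_LTR := by
  classical
  intro hTHR hORT hBAS D δ hδ M hMn hMf
  obtain ⟨hsym, hlin, -, -, hinv, hnorm, -, hRt, hneg, hrf, -⟩ := hBAS D
  obtain ⟨hFd0, hFp0, hδδ⟩ := (hORT D).1 δ hδ
  have hq : 0 < M.index := Nat.pos_of_ne_zero hMf.index_ne_zero
  refine ⟨M.index, hq, ?_⟩
  intro A hA
  -- the translation of a direction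
  have hT : ∀ α ∈ D.Fd δ, Tr D δ (D.rf (α + D.cst δ α • δ) * D.rf α) ((2 * D.cst δ α) • α) := by
    intro α hα
    obtain ⟨hc, hi, -⟩ := hTHR D δ hδ α hα
    exact Tr_rf D hBAS δ α _ hα.1 ((hi _).2 ⟨1, by simp⟩) (hFd0 α hα)
  have hTq : ∀ α ∈ D.Fd δ, ((2 * (M.index : ℝ) * D.cst δ α) • α : D.V) ∈ G D hBAS δ hδδ M := by
    intro α hα
    refine ⟨(D.rf (α + D.cst δ α • δ) * D.rf α) ^ M.index, Subgroup.pow_index_mem M _, ?_⟩
    have := Tr_pow D hBAS δ hδδ (hT α hα) M.index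
    have e : ((2 * (M.index : ℝ) * D.cst δ α) • α : D.V)
        = (M.index : ℝ) • ((2 * D.cst δ α) • α) := by
      rw [smul_smul]; congr 1; ring
    rw [e]
    exact this
  refine ⟨?_, ?_, ?_⟩
  · intro n
    have hmem : ∑ α ∈ A, n α • ((2 * (M.index : ℝ) * D.cst δ α) • α : D.V) ∈ G D hBAS δ hδδ M :=
      AddSubgroup.sum_mem _ fun α hα => AddSubgroup.zsmul_mem _ (hTq α (hA.1 α hα)) _
    obtain ⟨t, htM, ht0, ht⟩ := hmem
    have hcomp : ∀ v, D.B v (∑ α ∈ A, n α • ((2 * (M.index : ℝ) * D.cst δ α) • α : D.V))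
        = ∑ α ∈ A, n α * (2 * M.index * D.cst δ α * D.B v α) := by
      intro v
      rw [B_sum' D hBAS v A (fun α => n α • ((2 * (M.index : ℝ) * D.cst δ α) • α : D.V))]
      refine Finset.sum_congr rfl fun α _ => ?_
      rw [← Int.cast_smul_eq_zsmul ℝ, B_smul' D hBAS, B_smul' D hBAS]
    refine ⟨t, htM, ?_, ?_, ?_⟩
    · have := ht δ hδδ
      rwa [ht0, zero_smul, add_zero] at this
    · intro μ hμ
      have := ht μ hμ.2.1
      rw [hcomp] at this
      rw [this, Finset.sum_eq_zero, zero_smul, add_zero]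
      intro α hα
      rw [hFp0 μ hμ α (hA.1 α hα)]
      ring
    · intro ψ hψ
      rw [ht ψ (hFd0 ψ hψ), hcomp]
  · intro α hα ψ hψ
    have h1 := (hT α (hA.1 α hα)).2 ψ (hFd0 ψ hψ)
    have h2 : ψ + (2 * D.cst δ α * D.B ψ α) • δ ∈ D.Rt := by
      rw [B_smul' D hBAS] at h1
      rw [← h1]
      exact hRt ψ hψ.1 _
    exact ((hTHR D δ hδ ψ hψ).2.1 _).1 h2
  · intro θ hθ
    -- the reflection of a direction
    have hs : ∀ α ∈ A, ∀ β ∈ A, ∃ β' ∈ A, ∃ t : ℝ, β - (2 * D.B β α) • α = β' + t • δ := by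
      intro α hα β hβ
      have hβF := hA.1 β hβ
      have hαF := hA.1 α hα
      have h1 : β - (2 * D.B β α) • α ∈ D.Fd δ := by
        refine ⟨?_, ?_⟩
        · rw [← hrf α hαF.1]; exact hRt β hβF.1 _
        · obtain ⟨t, ht, htR⟩ := hβF.2
          refine ⟨t, ht, ?_⟩
          have h2 := hRt _ htR (D.rf α)
          rw [hrf α hαF.1] at h2
          have h3 : D.B (β + t • δ) α = D.B β α := by
            rw [B_add D hBAS, B_smul D hBAS, hsym δ α, hFd0 α hαF]; ring
          rw [h3] at h2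
          have e : β - (2 * D.B β α) • α + t • δ = β + t • δ - (2 * D.B β α) • α := by module
          rw [e]
          exact h2
      obtain ⟨β', ⟨hβ', t, ht⟩, -⟩ := hA.2 _ h1
      exact ⟨β', hβ', t, ht⟩
    have huniq : ∀ β ∈ A, ∀ β' ∈ A, (∃ t : ℝ, β = β' + t • δ) → β = β' := by
      intro β hβ β' hβ' ⟨t, ht⟩
      exact (hA.2 β (hA.1 β hβ)).unique ⟨hβ, 0, by simp⟩ ⟨hβ', t, ht⟩
    choose! π hπA s hπ using hs
    have hππ : ∀ α ∈ A, ∀ β ∈ A, π α (π α β) = β := by
      intro α hα β hβ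
      have h1 := hπ α hα β hβ
      have h2 := hπ α hα (π α β) (hπA α hα β hβ)
      refine (huniq β hβ _ (hπA α hα _ (hπA α hα β hβ)) ⟨s α (π α β) + s α β, ?_⟩).symm
      have h3 : π α β = β - (2 * D.B β α) • α - s α β • δ := by rw [h1]; module
      have h4 : D.B (π α β) α = -D.B β α := by
        rw [h3, sub_eq_add_neg, sub_eq_add_neg, ← neg_smul, ← neg_smul, B_add D hBAS,
          B_add D hBAS, B_smul D hBAS, B_smul D hBAS, hsym δ α, hFd0 α (hA.1 α hα),
          hnorm α (hA.1 α hα).1]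
        ring
      rw [h4, h3] at h2
      have h5 : π α (π α β) = β - (2 * D.B β α) • α - s α β • δ - (2 * -D.B β α) • α
          - s α (π α β) • δ := by
        rw [h3, h2]; module
      rw [h5]; module
    have hBπ : ∀ α ∈ A, ∀ β ∈ A, D.B (π α β) α = -D.B β α := by
      intro α hα β hβ
      have h3 : π α β = β - (2 * D.B β α) • α - s α β • δ := by rw [hπ α hα β hβ]; module
      rw [h3, sub_eq_add_neg, sub_eq_add_neg, ← neg_smul, ← neg_smul, B_add D hBAS,
        B_add D hBAS, B_smul D hBAS, B_smul D hBAS, hsym δ α, hFd0 α (hA.1 α hα),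
        hnorm α (hA.1 α hα).1]
      ring
    set p : D.V → ℝ := fun α => ∑ β ∈ A, D.B β α ^ 2 with hp
    have hppos : ∀ α ∈ A, p α ≠ 0 := by
      intro α hα
      have h1 : D.B α α ^ 2 ≤ p α :=
        Finset.single_le_sum (f := fun β => D.B β α ^ 2) (fun β _ => sq_nonneg _) hα
      rw [hnorm α (hA.1 α hα).1] at h1
      intro h0
      rw [h0] at h1
      norm_num at h1
    -- the key identity
    have key : ∀ η : D.V → ℝ, (∀ v w, η (v + w) = η v + η w) → (∀ (a : ℝ) v, η (a • v) = a * η v) →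
        η δ = 0 → ∀ α ∈ A, ∑ β ∈ A, D.B β α * η β = p α * η α := by
      intro η ha hsm h0 α hα
      have h1 : ∑ β ∈ A, D.B β α * η β = ∑ β ∈ A, D.B (π α β) α * η (π α β) :=
        (Finset.sum_nbij' (π α) (π α) (fun β hβ => hπA α hα β hβ) (fun β hβ => hπA α hα β hβ)
          (fun β hβ => hππ α hα β hβ) (fun β hβ => hππ α hα β hβ) (fun β _ => rfl)).symm
      have h2 : ∀ β ∈ A, D.B (π α β) α * η (π α β)
          = -(D.B β α * η β) + 2 * (D.B β α ^ 2 * η α) := by
        intro β hβ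
        have h3 : π α β = β + ((-(2 * D.B β α)) • α + (-(s α β)) • δ) := by
          have := hπ α hα β hβ
          rw [← sub_eq_iff_eq_add] at this
          rw [← this]; module
        rw [hBπ α hα β hβ]
        rw [h3, ha, ha, hsm, hsm, h0]
        ring
      rw [Finset.sum_congr rfl h2, Finset.sum_add_distrib, Finset.sum_neg_distrib,
        ← Finset.mul_sum, ← Finset.sum_mul] at h1
      have h4 : ∑ β ∈ A, D.B β α ^ 2 = p α := rfl
      rw [h4] at h1
      linarith
    refine ⟨fun α => θ α / p α, ?_⟩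
    set η : D.V → ℝ := fun v => θ v - ∑ α ∈ A, θ α / p α * D.B v α with hη
    have hadd : ∀ v w, η (v + w) = η v + η w := by
      intro v w
      simp only [hη, map_add, B_add D hBAS, mul_add, Finset.sum_add_distrib]
      ring
    have hsm : ∀ (a : ℝ) v, η (a • v) = a * η v := by
      intro a v
      simp only [hη, map_smul, smul_eq_mul, B_smul D hBAS, mul_sub, Finset.mul_sum]
      congr 1
      refine Finset.sum_congr rfl fun α _ => ?_
      ring
    have h0 : η δ = 0 := by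
      simp only [hη, hθ, zero_sub, neg_eq_zero]
      refine Finset.sum_eq_zero fun α hα => ?_
      rw [hsym δ α, hFd0 α (hA.1 α hα), mul_zero]
    have hsum : ∑ β ∈ A, η β ^ 2 = 0 := by
      have e1 : ∀ β ∈ A, η β ^ 2 = η β * θ β - ∑ α ∈ A, θ α / p α * (D.B β α * η β) := by
        intro β _
        have : η β ^ 2 = η β * (θ β - ∑ α ∈ A, θ α / p α * D.B β α) := by
          rw [sq]
        rw [this, mul_sub, Finset.mul_sum]
        congr 1
        refine Finset.sum_congr rfl fun α _ => ?_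
        ring
      rw [Finset.sum_congr rfl e1, Finset.sum_sub_distrib, Finset.sum_comm, sub_eq_zero]
      refine Finset.sum_congr rfl fun α hα => ?_
      rw [← Finset.mul_sum, key η hadd hsm h0 α hα]
      have := hppos α hα
      field_simp
    have hz : ∀ β ∈ A, η β = 0 := by
      intro β hβ
      have := (Finset.sum_eq_zero_iff_of_nonneg (fun β _ => sq_nonneg (η β))).1 hsum β hβ
      exact pow_eq_zero_iff (two_ne_zero) |>.1 this
    intro ψ hψ
    obtain ⟨α, ⟨hα, t, ht⟩, -⟩ := hA.2 ψ hψ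
    have : η ψ = 0 := by
      rw [ht, hadd, hsm, hz α hα, h0]; ring
    simp only [hη] at this
    linarith

end Pool.CS
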