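import Pool.Agent.Work.MP_64ea0f_cs.InterfaceE

set_option autoImplicit false

namespace Pool.CS

theorem aft_thm : Stmt_TOR → Stmt_INF → Stmt_AFT := by
  intro hT hI D hAF x y hpc
  by_cases hx : ∃ n : ℕ, 0 < n ∧ x ^ n = 1
  · exact hT D hAF x y hx hpc
  · exact hI D hAF x y hx hpc

end Pool.CS
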