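import Pool.Agent.Work.MP_64ea0f_cs.InterfaceE

set_option autoImplicit false

namespace Pool.CS

theorem tor_thm : Stmt_RTT → Stmt_TOR := by
  intro hR D hAF x y hx hpc
  obtain ⟨M', hn, hf, h⟩ := hR D hAF x y hx ⊤ inferInstance inferInstance
  obtain ⟨c, hc⟩ := hpc M' hn hf
  obtain ⟨m, -, hm⟩ := h c hc
  exact (isConj_iff.2 ⟨m * c, hm⟩ : IsConj y x).symm

end Pool.CS
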